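import Pool.Agent.N581.Cop.Basic

/-!
# The supremum is attained
-/

open Filter Topology MeasureTheory

namespace Pool.Agent.N581.Cop

variable {n : ℕ}

/-- the product copula. -/
lemma isCopula_prod (n : ℕ) : IsCopula n (fun x => ∏ k, (x k : ℝ)) where
  mem_Icc x := ⟨Finset.prod_nonneg fun k _ => (x k).2.1,
    Finset.prod_le_one (fun k _ => (x k).2.1) fun k _ => (x k).2.2⟩
  grounded x := by
    rintro ⟨k, hk⟩
    exact Finset.prod_eq_zero (Finset.mem_univ k) (by simp [hk])
  margin x k h := by
    rw [Finset.prod_eq_single k]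
    · intro j _ hj; simp [h j hj]
    · intro h; exact absurd (Finset.mem_univ k) h
  increasing u v huv := by
    have : boxVol (fun x : Fin n → unitInterval => ∏ k, (x k : ℝ)) u v =
        ∏ k, ((v k : ℝ) - u k) := by
      unfold boxVol
      have h1 : ∀ k, ((v k : ℝ) - u k) = ∑ b : Bool, (if b then (v k : ℝ) else -(u k : ℝ)) := by
        intro k; simp; ring
      simp_rw [h1]
      rw [Finset.prod_univ_sum]
      rw [Fintype.piFinset_univ]
      refine Finset.sum_congr rfl fun ε _ => ?_
      have h2 : (-1 : ℝ) ^ (Finset.univ.filter fun k => ε k = false).card =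
          ∏ k, (if ε k = false then (-1 : ℝ) else 1) := by
        rw [Finset.prod_ite, Finset.prod_const_one, mul_one, Finset.prod_const]
      rw [h2, ← Finset.prod_mul_distrib]
      refine Finset.prod_congr rfl fun k _ => ?_
      cases ε k <;> simp
    rw [this]
    exact Finset.prod_nonneg fun k _ => sub_nonneg.2 (huv k)

lemma values_nonempty (n : ℕ) : (values n).Nonempty :=
  ⟨_, ∅, MeasurableSet.empty, ⟨_, isCopula_prod n, by simp⟩, rfl⟩

lemma values_bddAbove (n : ℕ) : BddAbove (values n) := by
  refine ⟨1, ?_⟩
  rintro _ ⟨A, _, _, rfl⟩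
  have : (volume A).toReal = volume.real A := rfl
  rw [this]
  exact measureReal_le_one

lemma lipschitz {C : (Fin n → unitInterval) → ℝ} (hC : IsCopula n C) : LipschitzWith n C := by
  apply LipschitzWith.of_dist_le_mul
  intro x y
  rw [Real.dist_eq]
  refine (lip hC x y).trans ?_
  calc ∑ k, |(x k : ℝ) - y k| ≤ ∑ _k : Fin n, dist x y := by
        refine Finset.sum_le_sum fun k _ => ?_
        have := dist_le_pi_dist x y k
        rwa [Subtype.dist_eq, Real.dist_eq] at this
    _ = _ := by simp

lemma continuous_frechet (n : ℕ) : Continuous (frechet n) := by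
  unfold frechet
  fun_prop

/-- a limit of copulas along an ultrafilter on `ℕ` exists, is a copula, and is uniform. -/
lemma exists_limit (F : ℕ → (Fin n → unitInterval) → ℝ) (hF : ∀ m, IsCopula n (F m)) :
    ∃ f, IsCopula n f ∧ TendstoUniformly F f (hyperfilter ℕ : Filter ℕ) := by
  have hex : ∀ x, ∃ y : ℝ, Tendsto (fun m => F m x) (hyperfilter ℕ : Filter ℕ) (𝓝 y) := by
    intro x
    have hc : IsCompact (Set.Icc (0 : ℝ) 1) := isCompact_Icc
    have hle : (((hyperfilter ℕ).map (fun m => F m x) : Ultrafilter ℝ) : Filter ℝ) ≤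
        𝓟 (Set.Icc (0 : ℝ) 1) := by
      rw [le_principal_iff]
      exact Filter.mem_map.2 (Filter.univ_mem' fun m => (hF m).mem_Icc x)
    obtain ⟨y, _, hy⟩ := hc.ultrafilter_le_nhds _ hle
    exact ⟨y, hy⟩
  choose f hf using hex
  refine ⟨f, ?_, ?_⟩
  · refine ⟨fun x => ?_, fun x hx => ?_, fun x k hk => ?_, fun u v huv => ?_⟩
    · exact isClosed_Icc.mem_of_tendsto (hf x) (Eventually.of_forall fun m => (hF m).mem_Icc x)
    · refine tendsto_nhds_unique (hf x) ?_
      refine tendsto_const_nhds.congr fun m => ((hF m).grounded x hx).symm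
    · refine tendsto_nhds_unique (hf x) ?_
      refine tendsto_const_nhds.congr fun m => ((hF m).margin x k hk).symm
    · have ht : Tendsto (fun m => boxVol (F m) u v) (hyperfilter ℕ : Filter ℕ)
          (𝓝 (boxVol f u v)) := by
        unfold boxVol
        exact tendsto_finsetSum _ fun ε _ => (hf _).const_mul _
      exact ge_of_tendsto' ht fun m => (hF m).increasing u v huv
  · have heq : UniformEquicontinuous F :=
      LipschitzWith.uniformEquicontinuous F n fun m => lipschitz (hF m)
    have := (heq.equicontinuous.tendsto_uniformFun_iff_pi (hyperfilter ℕ : Filter ℕ) f).2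
      (tendsto_pi_nhds.2 hf)
    rwa [UniformFun.tendsto_iff_tendstoUniformly] at this

theorem attained (n : ℕ) : ∃ C, IsCopula n C ∧
    (volume {x | C x = frechet n x}).toReal = sn n := by
  obtain ⟨t, -, ht, hmem⟩ := exists_seq_tendsto_sSup (values_nonempty n) (values_bddAbove n)
  choose A hA hC hval using hmem
  choose F hF hFA using hC
  obtain ⟨f, hf, hunif⟩ := exists_limit F hF
  have htU : Tendsto t (hyperfilter ℕ : Filter ℕ) (𝓝 (sn n)) :=
    ht.mono_left Nat.hyperfilter_le_atTop
  refine ⟨f, hf, le_antisymm ?_ ?_⟩
  · refine le_csSup (values_bddAbove n) ⟨_, ?_, ⟨f, hf, fun x hx => hx⟩, rfl⟩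
    exact (isClosed_eq (lipschitz hf).continuous (continuous_frechet n)).measurableSet
  · -- upper semicontinuity
    set B : ℕ → Set (Fin n → unitInterval) :=
      fun k => {x | |f x - frechet n x| ≤ 1 / ((k : ℝ) + 1)} with hB
    have hBcl : ∀ k, IsClosed (B k) := fun k =>
      isClosed_le (((lipschitz hf).continuous.sub (continuous_frechet n)).abs) continuous_const
    have hstep : ∀ k, sn n ≤ (volume (B k)).toReal := by
      intro k
      have hpos : (0 : ℝ) < 1 / ((k : ℝ) + 1) := by positivity
      rw [Metric.tendstoUniformly_iff] at hunif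
      have h1 := hunif _ hpos
      refine le_of_tendsto htU ?_
      filter_upwards [h1] with m hm
      rw [hval m]
      refine ENNReal.toReal_mono (measure_ne_top _ _) (measure_mono fun x hx => ?_)
      have h2 := hm x
      rw [hFA m x hx, Real.dist_eq] at h2
      exact h2.le
    have hanti : Antitone B := by
      intro a b hab x hx
      have hx' : |f x - frechet n x| ≤ 1 / ((b : ℝ) + 1) := hx
      show |f x - frechet n x| ≤ 1 / ((a : ℝ) + 1)
      refine hx'.trans ?_
      apply one_div_le_one_div_of_le (by positivity)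
      have : (a : ℝ) ≤ b := by exact_mod_cast hab
      linarith
    have hinter : {x | f x = frechet n x} = ⋂ k, B k := by
      ext x
      simp only [Set.mem_iInter, hB]
      constructor
      · intro hx k
        have hx' : f x = frechet n x := hx
        show |f x - frechet n x| ≤ 1 / ((k : ℝ) + 1)
        rw [hx', sub_self, abs_zero]
        positivity
      · intro hx
        have h0 : |f x - frechet n x| ≤ 0 := by
          refine ge_of_tendsto' tendsto_one_div_add_atTop_nhds_zero_nat fun k => ?_
          exact hx k
        have := abs_nonpos_iff.1 h0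
        show f x = frechet n x
        linarith
    rw [hinter]
    have hlim := tendsto_measure_iInter_atTop (μ := (volume : Measure (Fin n → unitInterval)))
      (s := B) (fun k => (hBcl k).measurableSet.nullMeasurableSet) hanti
      ⟨0, measure_ne_top _ _⟩
    have hlim2 := (ENNReal.tendsto_toReal (measure_ne_top _ _)).comp hlim
    exact ge_of_tendsto' hlim2 fun k => hstep k

end Pool.Agent.N581.Cop
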