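import Mathlib

/-!
# n-copulas
-/

open Filter Topology MeasureTheory

namespace Pool.Agent.N581.Cop

/-- The `C`-volume of the box `[u, v]`: the alternating sum of `C` over its vertices. -/
noncomputable def boxVol {n : ℕ} (C : (Fin n → unitInterval) → ℝ) (u v : Fin n → unitInterval) : ℝ :=
  ∑ ε : Fin n → Bool, (-1 : ℝ) ^ (Finset.univ.filter fun k => ε k = false).card *
    C (fun k => if ε k then v k else u k)

/-- `n`-copulas on the cube `[0,1]^n`. -/
structure IsCopula (n : ℕ) (C : (Fin n → unitInterval) → ℝ) : Prop where
  mem_Icc : ∀ x, C x ∈ Set.Icc (0 : ℝ) 1
  grounded : ∀ x, (∃ k, x k = 0) → C x = 0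
  margin : ∀ x k, (∀ j, j ≠ k → x j = 1) → C x = x k
  increasing : ∀ u v, u ≤ v → 0 ≤ boxVol C u v

/-- The lower Fréchet bound `W^{n-1}(x) = max (x_1 + ⋯ + x_n - n + 1) 0`. -/
noncomputable def frechet (n : ℕ) (x : Fin n → unitInterval) : ℝ :=
  max ((∑ k, (x k : ℝ)) - n + 1) 0

/-- The set of measures of measurable sets on which some `n`-copula equals `W^{n-1}`. -/
def values (n : ℕ) : Set ℝ :=
  {t | ∃ A : Set (Fin n → unitInterval), MeasurableSet A ∧
    (∃ C, IsCopula n C ∧ ∀ x ∈ A, C x = frechet n x) ∧ t = (volume A).toReal}

/-- `s_n`, the supremum of these measures. -/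
noncomputable def sn (n : ℕ) : ℝ := sSup (values n)

variable {n : ℕ} {C : (Fin n → unitInterval) → ℝ}

/-- the vertices of the box that matter when `u` vanishes off `{k, j}`. -/
lemma boxVol_two (hC : IsCopula n C) (k : Fin n) (a : unitInterval) (y : Fin n → unitInterval) :
    boxVol C (Function.update 0 k a) y = C y - C (Function.update y k a) := by
  classical
  unfold boxVol
  set e1 : Fin n → Bool := fun _ => true with he1
  set e2 : Fin n → Bool := Function.update (fun _ => true) k false with he2
  have hne : e1 ≠ e2 := by
    intro h
    have := congrFun h k
    simp [he1, he2] at this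
  have hsub : ∑ ε : Fin n → Bool, (-1 : ℝ) ^ (Finset.univ.filter fun i => ε i = false).card *
      C (fun i => if ε i then y i else (Function.update (0 : Fin n → unitInterval) k a) i) =
      ∑ ε ∈ ({e1, e2} : Finset (Fin n → Bool)),
        (-1 : ℝ) ^ (Finset.univ.filter fun i => ε i = false).card *
        C (fun i => if ε i then y i else (Function.update (0 : Fin n → unitInterval) k a) i) := by
    symm
    apply Finset.sum_subset (Finset.subset_univ _)
    intro ε _ hε
    rw [hC.grounded, mul_zero]
    by_contra hcon
    push Not at hcon
    apply hε
    rw [Finset.mem_insert, Finset.mem_singleton]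
    have h1 : ∀ i, i ≠ k → ε i = true := by
      intro i hi
      by_contra hf
      apply hcon i
      simp [hf, Function.update_of_ne hi]
    cases hk : ε k with
    | true =>
      left; funext i
      by_cases hi : i = k
      · subst hi; simp [he1, hk]
      · simp [he1, h1 i hi]
    | false =>
      right; funext i
      by_cases hi : i = k
      · subst hi; simp [he2, hk]
      · simp [he2, h1 i hi, Function.update_of_ne hi]
  rw [hsub, Finset.sum_pair hne]
  have c1 : (Finset.univ.filter fun i => e1 i = false).card = 0 := by simp [he1]
  have c2 : (Finset.univ.filter fun i => e2 i = false).card = 1 := by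
    rw [Finset.card_eq_one]
    refine ⟨k, ?_⟩
    ext i
    simp only [Finset.mem_filter, Finset.mem_univ, true_and, Finset.mem_singleton, he2]
    by_cases hi : i = k
    · subst hi; simp
    · simp [hi]
  rw [c1, c2]
  have w1 : (fun i => if e1 i then y i else (Function.update (0 : Fin n → unitInterval) k a) i) = y := by
    funext i; simp [he1]
  have w2 : (fun i => if e2 i then y i else (Function.update (0 : Fin n → unitInterval) k a) i) =
      Function.update y k a := by
    funext i
    by_cases hi : i = k
    · subst hi; simp [he2]
    · simp [he2, hi]
  rw [w1, w2]
  ring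

lemma boxVol_four (hC : IsCopula n C) {k j : Fin n} (hkj : k ≠ j) (a b : unitInterval)
    (y : Fin n → unitInterval) :
    boxVol C (Function.update (Function.update 0 k a) j b) y =
      C y - C (Function.update y k a) - C (Function.update y j b) +
        C (Function.update (Function.update y k a) j b) := by
  classical
  unfold boxVol
  set e1 : Fin n → Bool := fun _ => true with he1
  set e2 : Fin n → Bool := Function.update (fun _ => true) k false with he2
  set e3 : Fin n → Bool := Function.update (fun _ => true) j false with he3
  set e4 : Fin n → Bool := Function.update (Function.update (fun _ => true) k false) j false with he4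
  have hjk : j ≠ k := hkj.symm
  have h12 : e1 ≠ e2 := fun h => by have := congrFun h k; simp [he1, he2] at this
  have h13 : e1 ≠ e3 := fun h => by have := congrFun h j; simp [he1, he3] at this
  have h14 : e1 ≠ e4 := fun h => by have := congrFun h j; simp [he1, he4] at this
  have h23 : e2 ≠ e3 := fun h => by
    have := congrFun h k; simp [he2, he3, Function.update_of_ne hkj] at this
  have h24 : e2 ≠ e4 := fun h => by
    have := congrFun h j; simp [he2, he4, Function.update_of_ne hjk] at this
  have h34 : e3 ≠ e4 := fun h => by
    have := congrFun h k; simp [he3, he4, Function.update_of_ne hkj] at this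
  set u : Fin n → unitInterval := Function.update (Function.update 0 k a) j b with hu
  have hsub : ∑ ε : Fin n → Bool, (-1 : ℝ) ^ (Finset.univ.filter fun i => ε i = false).card *
      C (fun i => if ε i then y i else u i) =
      ∑ ε ∈ ({e1, e2, e3, e4} : Finset (Fin n → Bool)),
        (-1 : ℝ) ^ (Finset.univ.filter fun i => ε i = false).card *
        C (fun i => if ε i then y i else u i) := by
    symm
    apply Finset.sum_subset (Finset.subset_univ _)
    intro ε _ hε
    rw [hC.grounded, mul_zero]
    by_contra hcon
    push Not at hcon
    apply hε
    simp only [Finset.mem_insert, Finset.mem_singleton]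
    have h1 : ∀ i, i ≠ k → i ≠ j → ε i = true := by
      intro i hi hi2
      by_contra hf
      apply hcon i
      simp [hf, hu, Function.update_of_ne hi, Function.update_of_ne hi2]
    cases hk : ε k <;> cases hj : ε j
    · right; right; right; funext i
      by_cases hi : i = k
      · subst hi; simp [he4, hk, Function.update_of_ne hkj]
      · by_cases hi2 : i = j
        · subst hi2; simp [he4, hj]
        · simp [he4, h1 i hi hi2, Function.update_of_ne hi, Function.update_of_ne hi2]
    · right; left; funext i
      by_cases hi : i = k
      · subst hi; simp [he2, hk]
      · by_cases hi2 : i = j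
        · subst hi2; simp [he2, hj, Function.update_of_ne hi]
        · simp [he2, h1 i hi hi2, Function.update_of_ne hi]
    · right; right; left; funext i
      by_cases hi : i = k
      · subst hi; simp [he3, hk, Function.update_of_ne hkj]
      · by_cases hi2 : i = j
        · subst hi2; simp [he3, hj]
        · simp [he3, h1 i hi hi2, Function.update_of_ne hi2]
    · left; funext i
      by_cases hi : i = k
      · subst hi; simp [he1, hk]
      · by_cases hi2 : i = j
        · subst hi2; simp [he1, hj]
        · simp [he1, h1 i hi hi2]
  rw [hsub, Finset.sum_insert (by simp [h12, h13, h14]), Finset.sum_insert (by simp [h23, h24]),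
    Finset.sum_pair h34]
  have c1 : (Finset.univ.filter fun i => e1 i = false).card = 0 := by simp [he1]
  have c2 : (Finset.univ.filter fun i => e2 i = false).card = 1 := by
    rw [Finset.card_eq_one]
    refine ⟨k, ?_⟩
    ext i
    simp only [Finset.mem_filter, Finset.mem_univ, true_and, Finset.mem_singleton, he2]
    by_cases hi : i = k
    · subst hi; simp
    · simp [hi]
  have c3 : (Finset.univ.filter fun i => e3 i = false).card = 1 := by
    rw [Finset.card_eq_one]
    refine ⟨j, ?_⟩
    ext i
    simp only [Finset.mem_filter, Finset.mem_univ, true_and, Finset.mem_singleton, he3]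
    by_cases hi : i = j
    · subst hi; simp
    · simp [hi]
  have c4 : (Finset.univ.filter fun i => e4 i = false).card = 2 := by
    rw [Finset.card_eq_two]
    refine ⟨k, j, hkj, ?_⟩
    ext i
    simp only [Finset.mem_filter, Finset.mem_univ, true_and, Finset.mem_singleton, he4,
      Finset.mem_insert]
    by_cases hi : i = j
    · subst hi; simp
    · by_cases hi2 : i = k
      · subst hi2; simp [Function.update_of_ne hi]
      · simp [hi, hi2, Function.update_of_ne hi, Function.update_of_ne hi2]
  rw [c1, c2, c3, c4]
  have w1 : (fun i => if e1 i then y i else u i) = y := by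
    funext i; simp [he1]
  have w2 : (fun i => if e2 i then y i else u i) = Function.update y k a := by
    funext i
    by_cases hi : i = k
    · subst hi; simp [he2, hu, Function.update_of_ne hkj]
    · simp [he2, hi]
  have w3 : (fun i => if e3 i then y i else u i) = Function.update y j b := by
    funext i
    by_cases hi : i = j
    · subst hi; simp [he3, hu]
    · simp [he3, hi]
  have w4 : (fun i => if e4 i then y i else u i) = Function.update (Function.update y k a) j b := by
    funext i
    by_cases hi : i = j
    · subst hi; simp [he4, hu]
    · by_cases hi2 : i = k
      · subst hi2; simp [he4, hu, Function.update_of_ne hi]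
      · simp [he4, hu, Function.update_of_ne hi, Function.update_of_ne hi2]
  rw [w1, w2, w3, w4]
  ring

/-- monotonicity in one variable. -/
lemma mono_one (hC : IsCopula n C) (k : Fin n) {a : unitInterval} (y : Fin n → unitInterval)
    (ha : a ≤ y k) : C (Function.update y k a) ≤ C y := by
  have h := hC.increasing (Function.update 0 k a) y ?_
  · rw [boxVol_two hC] at h; linarith
  · intro i
    by_cases hi : i = k
    · subst hi; simpa using ha
    · simp [hi]

/-- the increments in coordinate `k` grow with the other coordinates. -/
lemma diff_mono (hC : IsCopula n C) {k j : Fin n} (hkj : k ≠ j) {a b : unitInterval}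
    (y : Fin n → unitInterval) (ha : a ≤ y k) (hb : b ≤ y j) :
    C (Function.update y j b) - C (Function.update (Function.update y j b) k a) ≤
      C y - C (Function.update y k a) := by
  have h := hC.increasing (Function.update (Function.update 0 k a) j b) y ?_
  · rw [boxVol_four hC hkj] at h
    rw [Function.update_comm hkj.symm]
    linarith
  · intro i
    by_cases hi : i = j
    · subst hi; simpa using hb
    · by_cases hi2 : i = k
      · subst hi2; simpa [Function.update_of_ne hi] using ha
      · simp [Function.update_of_ne hi, Function.update_of_ne hi2]

/-- the increment in coordinate `k` is at most the increment of the coordinate. -/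
lemma diff_le (hC : IsCopula n C) (k : Fin n) {a : unitInterval} (y : Fin n → unitInterval)
    (ha : a ≤ y k) : C y - C (Function.update y k a) ≤ (y k : ℝ) - a := by
  classical
  -- raise all other coordinates to 1
  have key : ∀ S : Finset (Fin n), k ∉ S → ∀ y : Fin n → unitInterval, a ≤ y k →
      C y - C (Function.update y k a) ≤
        C (fun i => if i ∈ S then 1 else y i) -
          C (Function.update (fun i => if i ∈ S then 1 else y i) k a) := by
    intro S
    induction S using Finset.induction_on with
    | empty => intro _ y _; simp
    | insert j S hj ih =>
      intro hk y ha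
      rw [Finset.mem_insert, not_or] at hk
      refine (ih hk.2 y ha).trans ?_
      set z : Fin n → unitInterval := fun i => if i ∈ insert j S then 1 else y i with hz
      have hz1 : (fun i => if i ∈ S then 1 else y i) = Function.update z j (y j) := by
        funext i
        by_cases hi : i = j
        · subst hi; simp [hj]
        · simp [hz, Finset.mem_insert, hi]
      rw [hz1]
      have hak : a ≤ z k := by simpa [hz, hk.1, hk.2] using ha
      have hbj : y j ≤ z j := by
        simp only [hz, Finset.mem_insert_self, if_true]
        exact unitInterval.le_one'
      exact diff_mono hC hk.1 z hak hbj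
  have h := key (Finset.univ.erase k) (by simp) y ha
  refine h.trans (le_of_eq ?_)
  have hone : ∀ c : unitInterval, C (Function.update (1 : Fin n → unitInterval) k c) = c := by
    intro c
    rw [hC.margin _ k (fun j hj => by simp [hj])]
    simp
  have e1 : (fun i => if i ∈ Finset.univ.erase k then (1 : unitInterval) else y i) =
      Function.update (1 : Fin n → unitInterval) k (y k) := by
    funext i
    by_cases hi : i = k
    · subst hi; simp
    · simp [hi]
  rw [e1, Function.update_idem, hone, hone]

/-- one-variable Lipschitz bound. -/
lemma lip_one (hC : IsCopula n C) (k : Fin n) (a : unitInterval) (y : Fin n → unitInterval) :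
    |C y - C (Function.update y k a)| ≤ |(y k : ℝ) - a| := by
  rcases le_total a (y k) with h | h
  · rw [abs_of_nonneg (sub_nonneg.2 (mono_one hC k y h)),
      abs_of_nonneg (sub_nonneg.2 (show (a : ℝ) ≤ y k from h))]
    exact diff_le hC k y h
  · set z := Function.update y k a with hz
    have h1 : y = Function.update z k (y k) := by simp [hz]
    have hzk : z k = a := by simp [hz]
    have h' : y k ≤ z k := by rw [hzk]; exact h
    have m := mono_one hC k z h'
    have d := diff_le hC k z h'
    rw [← h1] at m d
    rw [hzk] at d
    rw [abs_sub_comm, abs_of_nonneg (sub_nonneg.2 m), abs_sub_comm,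
      abs_of_nonneg (sub_nonneg.2 (show (y k : ℝ) ≤ a from h))]
    exact d

/-- Lipschitz bound. -/
lemma lip (hC : IsCopula n C) (x y : Fin n → unitInterval) :
    |C x - C y| ≤ ∑ k, |(x k : ℝ) - y k| := by
  classical
  have key : ∀ S : Finset (Fin n), |C x - C (fun i => if i ∈ S then y i else x i)| ≤
      ∑ k ∈ S, |(x k : ℝ) - y k| := by
    intro S
    induction S using Finset.induction_on with
    | empty => simp
    | insert j S hj ih =>
      rw [Finset.sum_insert hj]
      set z : Fin n → unitInterval := fun i => if i ∈ S then y i else x i with hz
      have hz1 : (fun i => if i ∈ insert j S then y i else x i) = Function.update z j (y j) := by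
        funext i
        by_cases hi : i = j
        · subst hi; simp
        · simp [hz, Finset.mem_insert, hi]
      rw [hz1]
      have h1 := lip_one hC j (y j) z
      have hzj : z j = x j := by simp [hz, hj]
      rw [hzj] at h1
      calc |C x - C (Function.update z j (y j))|
          ≤ |C x - C z| + |C z - C (Function.update z j (y j))| := abs_sub_le _ _ _
        _ ≤ _ := by linarith
  simpa using key Finset.univ

end Pool.Agent.N581.Cop
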