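import Pool.Agent.N581.Cop.Attain

/-!
# The supremum is less than one for `n ≥ 3`
-/

open Filter Topology MeasureTheory

namespace Pool.Agent.N581.Cop

variable {n : ℕ}

noncomputable def halfI : unitInterval := ⟨1 / 2, by norm_num, by norm_num⟩

/-- The volume of the box `[1/2, 1]^n` for the lower Fréchet bound is `1 - n/2`. -/
lemma boxVol_frechet (n : ℕ) :
    boxVol (frechet n) (fun _ => halfI) (fun _ => 1) = 1 - (n : ℝ) / 2 := by
  classical
  unfold boxVol
  have hval : ∀ ε : Fin n → Bool,
      (-1 : ℝ) ^ (Finset.univ.filter fun k => ε k = false).card *
        frechet n (fun k => if ε k then 1 else halfI) =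
      (if ε = (fun _ => true) then 1 else 0) +
        ∑ k, (if ε = Function.update (fun _ => true) k false then (-1 / 2 : ℝ) else 0) := by
    intro ε
    set S := Finset.univ.filter fun k => ε k = false with hS
    have hfr : frechet n (fun k => if ε k then 1 else halfI) = max (1 - (S.card : ℝ) / 2) 0 := by
      unfold frechet
      congr 1
      have h1 : ∀ k, (((if ε k then 1 else halfI : unitInterval)) : ℝ) =
          1 - (if ε k = false then (1 / 2 : ℝ) else 0) := by
        intro k
        cases ε k <;> simp [halfI]
        norm_num
      simp_rw [h1]
      rw [Finset.sum_sub_distrib, ← Finset.sum_filter, Finset.sum_const, Finset.sum_const,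
        Finset.card_univ, Fintype.card_fin, nsmul_eq_mul, nsmul_eq_mul]
      ring
    rw [hfr]
    rcases Nat.lt_or_ge S.card 2 with hlt | hge
    · interval_cases hcard : S.card
      · -- all true
        have he : ε = fun _ => true := by
          funext k
          have : k ∉ S := by rw [Finset.card_eq_zero.1 hcard]; simp
          simpa [hS] using this
        have hz : ∀ k : Fin n, ε ≠ Function.update (fun _ => true) k false := by
          intro k h
          rw [he] at h
          have := congrFun h k
          simp at this
        rw [if_pos he, Finset.sum_eq_zero fun k _ => if_neg (hz k)]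
        norm_num
      · obtain ⟨k, hk⟩ := Finset.card_eq_one.1 hcard
        have he : ε = Function.update (fun _ => true) k false := by
          funext i
          by_cases hi : i = k
          · subst hi
            have : i ∈ S := by rw [hk]; simp
            simpa [hS] using this
          · have : i ∉ S := by rw [hk]; simp [hi]
            simpa [hS, hi] using this
        have hne : ε ≠ fun _ => true := by
          intro h
          rw [h] at he
          have := congrFun he k
          simp at this
        rw [if_neg hne, Finset.sum_eq_single k]
        · rw [if_pos he]; norm_num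
        · intro j _ hj
          rw [if_neg]
          intro h
          rw [h] at he
          have := congrFun he j
          simp [hj] at this
        · intro h; exact absurd (Finset.mem_univ k) h
    · have hz : ∀ k : Fin n, ε ≠ Function.update (fun _ => true) k false := by
        intro k h
        have : S ⊆ {k} := by
          intro i hi
          rw [hS, Finset.mem_filter, h] at hi
          by_contra hik
          rw [Finset.mem_singleton] at hik
          simp [hik] at hi
        have := Finset.card_le_card this
        simp at this
        omega
      have hz' : ε ≠ fun _ => true := by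
        intro h
        have : S = ∅ := by
          rw [hS, h]; simp
        rw [this] at hge
        simp at hge
      rw [if_neg hz', Finset.sum_eq_zero fun k _ => if_neg (hz k)]
      have h2 : (2 : ℝ) ≤ S.card := by exact_mod_cast hge
      rw [max_eq_right (by linarith)]
      norm_num
  simp_rw [hval]
  rw [Finset.sum_add_distrib, Finset.sum_comm]
  simp_rw [Finset.sum_ite_eq' Finset.univ, Finset.mem_univ, if_true]
  rw [Finset.sum_const, Finset.card_univ, Fintype.card_fin, nsmul_eq_mul]
  ring

/-- the lower Fréchet bound is not a copula for `n ≥ 3`. -/
lemma not_isCopula_frechet (hn : 3 ≤ n) : ¬ IsCopula n (frechet n) := by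
  intro h
  have h1 := h.increasing (fun _ => halfI) (fun _ => 1) (fun _ => unitInterval.le_one')
  rw [boxVol_frechet] at h1
  have : (3 : ℝ) ≤ n := by exact_mod_cast hn
  linarith

instance instOpenPosI : (volume : Measure unitInterval).IsOpenPosMeasure := by
  constructor
  intro U hU hne h0
  obtain ⟨V, hV, rfl⟩ := isOpen_induced_iff.1 hU
  obtain ⟨x, hx⟩ := hne
  have hcl : (x : ℝ) ∈ closure (Set.Ioo (0 : ℝ) 1) := by
    rw [closure_Ioo (by norm_num)]; exact x.2
  have hne2 : (V ∩ Set.Ioo (0 : ℝ) 1).Nonempty := mem_closure_iff.1 hcl V hV hx
  have hpos := (hV.inter isOpen_Ioo).measure_pos volume hne2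
  rw [unitInterval.volume_apply] at h0
  have hsub : V ∩ Set.Ioo (0 : ℝ) 1 ⊆ Subtype.val '' ((Subtype.val : unitInterval → ℝ) ⁻¹' V) := by
    rintro y ⟨hy1, hy2⟩
    exact ⟨⟨y, hy2.1.le, hy2.2.le⟩, hy1, rfl⟩
  exact hpos.ne' (measure_mono_null hsub h0)

instance instOpenPosCube : (volume : Measure (Fin n → unitInterval)).IsOpenPosMeasure :=
  MeasureTheory.Measure.pi.isOpenPosMeasure _

theorem sn_lt_one (hn : 3 ≤ n) : sn n < 1 := by
  obtain ⟨C, hC, hval⟩ := attained n
  rw [← hval]
  have hle : (volume {x | C x = frechet n x}).toReal ≤ 1 := by
    have : (volume {x | C x = frechet n x}).toReal = volume.real {x | C x = frechet n x} := rfl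
    rw [this]; exact measureReal_le_one
  refine lt_of_le_of_ne hle ?_
  intro heq
  have hcl : IsClosed {x | C x = frechet n x} :=
    isClosed_eq (lipschitz hC).continuous (continuous_frechet n)
  have h1 : volume {x | C x = frechet n x} = 1 := by
    rw [← ENNReal.toReal_eq_toReal_iff' (measure_ne_top _ _) ENNReal.one_ne_top, heq,
      ENNReal.toReal_one]
  have h2 : volume {x | C x = frechet n x}ᶜ = 0 := by
    rw [prob_compl_eq_zero_iff hcl.measurableSet]; exact h1
  have h3 : {x | C x = frechet n x}ᶜ = ∅ := by
    by_contra hne
    have hne' := Set.nonempty_iff_ne_empty.2 hne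
    exact (hcl.isOpen_compl.measure_pos volume hne').ne' h2
  have h4 : C = frechet n := by
    funext x
    by_contra hx
    have : x ∈ {x | C x = frechet n x}ᶜ := hx
    rw [h3] at this
    exact this
  rw [h4] at hC
  exact not_isCopula_frechet hn hC

end Pool.Agent.N581.Cop
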